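import Pool.Agent.L7h71.GD.Stm

/-!
# Existence of presentations (maximal prime good sets)
-/

set_option autoImplicit false

namespace Pool.Agent.L7h42.GD

open Set Function Pool.Agent.L7h71.GB Pool.Agent.L7h71.GD
open Pool.Agent.L7h66.UA (XS XIso XYo XDich)

theorem s_CEM : S_CEM := by
  classical
  intro a K 𝓖 M h
  let 𝓜 : Set (Finset ℕ) := {b | (∃ y, Pr 𝓖 M b y) ∧ ∀ b', (∃ y, Pr 𝓖 M b' y) → b ⊆ b' → b' = b}
  have hcov : ∀ x, ∃ b ∈ 𝓜, x ∈ b := by
    intro x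
    obtain ⟨b, h1, h2, h3⟩ := h.top x
    exact ⟨b, ⟨h2, fun b' ⟨z, hz⟩ hbb => Finset.Subset.antisymm (h3 b' z hz hbb) hbb⟩, h1⟩
  have hinf : 𝓜.Infinite := by
    intro hfin
    have h1 : (⋃ b ∈ 𝓜, (b : Set ℕ)).Finite := hfin.biUnion fun b _ => b.finite_toSet
    have h2 : (⋃ b ∈ 𝓜, (b : Set ℕ)) = univ := by
      rw [eq_univ_iff_forall]
      intro x
      obtain ⟨b, hb, hx⟩ := hcov x
      exact mem_biUnion hb hx
    rw [h2] at h1
    exact infinite_univ h1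
  have : Infinite 𝓜 := hinf.to_subtype
  obtain ⟨φ⟩ : Nonempty (ℕ ≃ 𝓜) := nonempty_equiv_of_countable
  have hl : ∀ i, lst (Encodable.encode (φ i).1.toList) = (φ i).1.toList := fun i => lst_encode _
  refine ⟨fun i => Encodable.encode (φ i).1.toList, ⟨fun i => ?_, fun i => ?_, fun i j hij => ?_,
    fun x => ?_⟩⟩
  · rw [hl]
    exact Finset.nodup_toList _
  · rw [hl, Finset.toList_toFinset]
    exact (φ i).2.1
  · rw [hl, hl, Finset.toList_toFinset, Finset.toList_toFinset] at hij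
    have h1 := (φ i).2.2 _ (φ j).2.1 hij
    exact φ.injective (Subtype.ext h1.symm)
  · obtain ⟨b, hb, hx⟩ := hcov x
    refine ⟨φ.symm ⟨b, hb⟩, ?_⟩
    rw [hl, Equiv.apply_symm_apply, Finset.mem_toList]
    exact hx

end Pool.Agent.L7h42.GD
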